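import Pool.Agent.N353.PT.Stm

/-!
# Project PT (helper353), piece CL: the closure of a small set
-/

set_option autoImplicit false

open Finset
open scoped Classical

namespace Pool.Agent.N82.PT

open Pool.Agent.N353.PT

theorem t_CL : S_CL := by
  intro V _ T EA EB Q Y k hk hin hout
  -- in-neighbours
  have h1 : ∀ z : V, ∃ I : Finset V, z ∈ Y → (I ⊆ inN T z \ (EA ∪ Q) ∧ I.card = k) := by
    intro z
    by_cases hz : z ∈ Y
    · obtain ⟨I, hI, hc⟩ := Finset.exists_subset_card_eq (hin z hz)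
      exact ⟨I, fun _ => ⟨hI, hc⟩⟩
    · exact ⟨∅, fun h => absurd h hz⟩
  choose I hI using h1
  have h2 : ∀ z : V, ∃ O : Finset V, (z ∈ Y ∨ z ∉ Q) →
      (O ⊆ outN T z \ (EA ∪ EB ∪ Q) ∧ O.card = k) := by
    intro z
    by_cases hz : z ∈ Y ∨ z ∉ Q
    · obtain ⟨I, hI, hc⟩ := Finset.exists_subset_card_eq (hout z hz)
      exact ⟨I, fun _ => ⟨hI, hc⟩⟩
    · exact ⟨∅, fun h => absurd h hz⟩
  choose O hO using h2
  set R1 := Y.biUnion I with hR1
  set R2 := (Y ∪ R1).biUnion O with hR2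
  have m1 : ∀ x ∈ R1, x ∉ EA ∧ x ∉ Q := by
    intro x hx
    rw [hR1, mem_biUnion] at hx
    obtain ⟨z, hz, hxz⟩ := hx
    have := (hI z hz).1 hxz
    rw [mem_sdiff, mem_union, not_or] at this
    exact this.2
  have hYR : ∀ z ∈ Y ∪ R1, z ∈ Y ∨ z ∉ Q := by
    intro z hz
    rcases mem_union.1 hz with h | h
    · exact Or.inl h
    · exact Or.inr (m1 z h).2
  have m2 : ∀ x ∈ R2, x ∉ EA ∧ x ∉ EB ∧ x ∉ Q := by
    intro x hx
    rw [hR2, mem_biUnion] at hx
    obtain ⟨z, hz, hxz⟩ := hx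
    have := (hO z (hYR z hz)).1 hxz
    rw [mem_sdiff, mem_union, mem_union, not_or, not_or] at this
    exact ⟨this.2.1.1, this.2.1.2, this.2.2⟩
  have c1 : R1.card ≤ Y.card * k := Finset.card_biUnion_le_card_mul _ _ _ fun z hz => (hI z hz).2.le
  have c2 : R2.card ≤ (Y ∪ R1).card * k :=
    Finset.card_biUnion_le_card_mul _ _ _ fun z hz => (hO z (hYR z hz)).2.le
  have c3 := Finset.card_union_le Y R1
  have c4 := Finset.card_union_le R1 R2
  -- out-neighbours
  have hout' : ∀ z ∈ Y ∪ R1, k ≤ (outN T z ∩ ((R1 ∪ R2) \ EB)).card := by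
    intro z hz
    rw [← (hO z (hYR z hz)).2]
    refine Finset.card_le_card fun x hx => ?_
    have h3 := (hO z (hYR z hz)).1 hx
    rw [mem_sdiff] at h3
    have h4 : x ∈ R2 := mem_biUnion.2 ⟨z, hz, hx⟩
    rw [mem_inter, mem_sdiff, mem_union]
    exact ⟨h3.1, Or.inr h4, (m2 x h4).2.1⟩
  refine ⟨R1 ∪ R2, ?_, ?_, ?_⟩
  · rw [Finset.disjoint_left]
    intro x hx
    rcases mem_union.1 hx with h | h
    · exact (m1 x h).2
    · exact (m2 x h).2.2
  · have c5 : R2.card ≤ (Y.card + Y.card * k) * k :=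
      c2.trans (Nat.mul_le_mul_right _ (c3.trans (Nat.add_le_add_left c1 _)))
    have c6 : Y.card * k ≤ Y.card * k ^ 2 := by
      rw [sq, ← mul_assoc]
      exact Nat.le_mul_of_pos_right _ hk
    calc (R1 ∪ R2).card ≤ R1.card + R2.card := c4
      _ ≤ Y.card * k + (Y.card + Y.card * k) * k := Nat.add_le_add c1 c5
      _ = Y.card * k + Y.card * k + Y.card * k ^ 2 := by ring
      _ ≤ Y.card * k ^ 2 + Y.card * k ^ 2 + Y.card * k ^ 2 := by omega
      _ = 3 * k ^ 2 * Y.card := by ring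
  · intro z hz
    rcases mem_union.1 hz with h | h
    · refine ⟨fun _ => ?_, fun _ => hout' z (mem_union_left _ h)⟩
      rw [← (hI z h).2]
      refine Finset.card_le_card fun x hx => ?_
      have h3 := (hI z h).1 hx
      rw [mem_sdiff] at h3
      have h4 : x ∈ R1 := mem_biUnion.2 ⟨z, h, hx⟩
      rw [mem_inter, mem_sdiff, mem_union]
      exact ⟨h3.1, Or.inl h4, (m1 x h4).1⟩
    · rcases mem_union.1 h with h | h
      · exact ⟨fun h5 => absurd h5 (m1 z h).1, fun _ => hout' z (mem_union_right _ h)⟩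
      · exact ⟨fun h5 => absurd h5 (m2 z h).1, fun h5 => absurd h5 (m2 z h).2.1⟩

end Pool.Agent.N82.PT
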